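import Pool.Agent.Helper53.ZX.Gen

/-! Project ZD (MP_4ab349_nt): closure properties of integer valued polynomials. -/

set_option autoImplicit false

namespace Pool.ZX

open Finset

variable {n : ℕ}

/-- The product of binomials. -/
noncomputable def bin (a : Fin n → ℕ) (c : Fin n → ℕ) : ℂ := ∏ i, ((c i).choose (a i) : ℂ)

/-- The span of the products of binomials. -/
noncomputable def binSpan (n D : ℕ) : Submodule ℂ ((Fin n → ℕ) → ℂ) :=
  Submodule.span ℂ {f | ∃ a : Fin n → ℕ, ∑ i, a i ≤ D ∧ f = bin a}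

theorem bin_mem {D : ℕ} {a : Fin n → ℕ} (ha : ∑ i, a i ≤ D) : bin a ∈ binSpan n D :=
  Submodule.subset_span ⟨a, ha, rfl⟩

theorem isComb_iff {D : ℕ} {H : (Fin n → ℕ) → ℂ} : IsComb D H ↔ H ∈ binSpan n D := by
  classical
  constructor
  · rintro ⟨S, q, hS, hq⟩
    have h : H = ∑ a ∈ S, q a • bin a := by
      funext c
      rw [hq c, Finset.sum_apply]
      rfl
    rw [h]
    exact Submodule.sum_mem _ fun a ha => Submodule.smul_mem _ _ (bin_mem (hS a ha))
  · intro h
    refine Submodule.span_induction ?_ ?_ ?_ ?_ h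
    · rintro f ⟨a, ha, rfl⟩
      refine ⟨{a}, fun _ => 1, fun b hb => ?_, fun c => ?_⟩
      · rw [mem_singleton.1 hb]
        exact ha
      · simp [bin]
    · exact ⟨∅, fun _ => 0, by simp, by simp⟩
    · rintro f g _ _ ⟨S, q, hS, hq⟩ ⟨S', q', hS', hq'⟩
      refine ⟨S ∪ S', fun a => (if a ∈ S then q a else 0) + (if a ∈ S' then q' a else 0), ?_, ?_⟩
      · intro a ha
        rcases mem_union.1 ha with ha | ha
        · exact hS a ha
        · exact hS' a ha
      · intro c
        rw [Pi.add_apply, hq c, hq' c]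
        simp only [add_mul, sum_add_distrib, ite_mul, zero_mul]
        congr 1
        · rw [← sum_filter]
          refine sum_congr ?_ fun _ _ => rfl
          ext a
          simp only [mem_filter, mem_union]
          tauto
        · rw [← sum_filter]
          refine sum_congr ?_ fun _ _ => rfl
          ext a
          simp only [mem_filter, mem_union]
          tauto
    · rintro r f _ ⟨S, q, hS, hq⟩
      refine ⟨S, fun a => r * q a, hS, fun c => ?_⟩
      rw [Pi.smul_apply, hq c, smul_eq_mul, mul_sum]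
      exact sum_congr rfl fun a _ => by ring

theorem binSpan_mono {D D' : ℕ} (h : D ≤ D') : binSpan n D ≤ binSpan n D' :=
  Submodule.span_mono fun _ ⟨a, ha, hf⟩ => ⟨a, ha.trans h, hf⟩

/-- Products of polynomials in one variable. -/
theorem prod_mem (f : Fin n → ℕ → ℂ) (d : Fin n → ℕ) (α : Fin n → ℕ → ℂ)
    (h : ∀ i x, f i x = ∑ l ∈ range (d i + 1), α i l * (x.choose l : ℂ)) {D : ℕ}
    (hD : ∑ i, d i ≤ D) : (fun c : Fin n → ℕ => ∏ i, f i (c i)) ∈ binSpan n D := by
  classical
  have h1 : (fun c : Fin n → ℕ => ∏ i, f i (c i)) =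
      ∑ a ∈ Fintype.piFinset (fun i => range (d i + 1)), (∏ i, α i (a i)) • bin a := by
    funext c
    rw [Finset.sum_apply]
    simp only [h]
    rw [prod_univ_sum]
    refine sum_congr rfl fun a _ => ?_
    rw [Pi.smul_apply, smul_eq_mul, bin, ← prod_mul_distrib]
  rw [h1]
  refine Submodule.sum_mem _ fun a ha => Submodule.smul_mem _ _ (bin_mem ?_)
  rw [Fintype.mem_piFinset] at ha
  refine le_trans (sum_le_sum fun i _ => ?_) hD
  have := mem_range.1 (ha i)
  omega

/-- A product of two binomials is a combination of binomials. -/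
theorem choose_mul (a b : ℕ) : ∃ α : ℕ → ℂ, ∀ x : ℕ,
    ((x.choose a : ℂ) * (x.choose b : ℂ)) = ∑ l ∈ range (a + b + 1), α l * (x.choose l : ℂ) := by
  induction b generalizing a with
  | zero =>
    refine ⟨fun l => if l = a then 1 else 0, fun x => ?_⟩
    rw [sum_eq_single a]
    · simp
    · intro l _ hl
      simp [hl]
    · intro h
      exfalso
      apply h
      simp
  | succ b ih =>
    obtain ⟨α, hα⟩ := ih a
    -- `(b+1) C(x,b+1) = (x-b) C(x,b)` and `x C(x,l) = (l+1) C(x,l+1) + l C(x,l)`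
    have hb : ((b : ℂ) + 1) ≠ 0 := by exact_mod_cast Nat.succ_ne_zero b
    have hstep : ∀ x l : ℕ, (x : ℂ) * (x.choose l : ℂ) =
        ((l : ℂ) + 1) * (x.choose (l + 1) : ℂ) + l * (x.choose l : ℂ) := by
      intro x l
      have h1 : (x.choose (l + 1) : ℂ) * ((l : ℂ) + 1) = (x.choose l : ℂ) * ((x : ℂ) - l) := by
        rcases le_or_gt l x with hlx | hlx
        · have h2 := Nat.choose_succ_right_eq x l
          have h3 : ((x.choose (l + 1) * (l + 1) : ℕ) : ℂ) = ((x.choose l * (x - l) : ℕ) : ℂ) := by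
            rw [h2]
          push_cast [Nat.cast_sub hlx] at h3
          exact h3
        · rw [Nat.choose_eq_zero_of_lt hlx, Nat.choose_eq_zero_of_lt (by omega)]
          simp
      linear_combination -h1
    refine ⟨fun l => ((b : ℂ) + 1)⁻¹ * ((if l = 0 then 0 else (l : ℂ) * α (l - 1)) +
      ((l : ℂ) - b) * (if l ≤ a + b then α l else 0)), fun x => ?_⟩
    have h4 : (x.choose (b + 1) : ℂ) = ((b : ℂ) + 1)⁻¹ * (((x : ℂ) - b) * (x.choose b : ℂ)) := by
      have h5 := hstep x b
      field_simp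
      linear_combination -h5
    rw [h4]
    have h6 : (x.choose a : ℂ) * (((b : ℂ) + 1)⁻¹ * (((x : ℂ) - b) * (x.choose b : ℂ))) =
        ((b : ℂ) + 1)⁻¹ * (((x : ℂ) - b) * ((x.choose a : ℂ) * (x.choose b : ℂ))) := by ring
    rw [h6, hα x]
    have h7 : ((x : ℂ) - b) * ∑ l ∈ range (a + b + 1), α l * (x.choose l : ℂ) =
        ∑ l ∈ range (a + b + 1), (α l * ((l : ℂ) + 1) * (x.choose (l + 1) : ℂ)) +
        ∑ l ∈ range (a + b + 1), (((l : ℂ) - b) * α l * (x.choose l : ℂ)) := by
      rw [mul_sum, ← sum_add_distrib]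
      refine sum_congr rfl fun l _ => ?_
      have h8 := hstep x l
      linear_combination α l * h8
    rw [h7]
    have h9 : ∑ l ∈ range (a + (b + 1) + 1), ((b : ℂ) + 1)⁻¹ *
        ((if l = 0 then 0 else (l : ℂ) * α (l - 1)) +
        ((l : ℂ) - b) * (if l ≤ a + b then α l else 0)) * (x.choose l : ℂ) =
        ((b : ℂ) + 1)⁻¹ * (∑ l ∈ range (a + (b + 1) + 1),
          (if l = 0 then 0 else (l : ℂ) * α (l - 1)) * (x.choose l : ℂ) +
        ∑ l ∈ range (a + (b + 1) + 1),
          ((l : ℂ) - b) * (if l ≤ a + b then α l else 0) * (x.choose l : ℂ)) := by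
      rw [← sum_add_distrib, mul_sum]
      exact sum_congr rfl fun l _ => by ring
    rw [h9]
    congr 2
    · rw [show a + (b + 1) + 1 = (a + b + 1) + 1 by ring, sum_range_succ' _ (a + b + 1)]
      simp only [if_true, zero_mul, add_zero, Nat.succ_ne_zero, if_false, Nat.add_sub_cancel]
      refine sum_congr rfl fun l _ => ?_
      push_cast
      ring
    · rw [show a + (b + 1) + 1 = (a + b + 1) + 1 by ring, sum_range_succ _ (a + b + 1)]
      rw [if_neg (by omega)]
      simp only [mul_zero, zero_mul, add_zero]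
      refine sum_congr rfl fun l hl => ?_
      rw [if_pos (by have := mem_range.1 hl; omega)]

theorem bin_mul_mem {D D' : ℕ} {a b : Fin n → ℕ} (ha : ∑ i, a i ≤ D) (hb : ∑ i, b i ≤ D') :
    (bin a * bin b) ∈ binSpan n (D + D') := by
  choose α hα using fun i : Fin n => choose_mul (a i) (b i)
  have h := prod_mem (fun i x => (x.choose (a i) : ℂ) * (x.choose (b i) : ℂ))
    (fun i => a i + b i) α (fun i x => hα i x) (D := D + D') (by
      rw [sum_add_distrib]
      omega)
  have h2 : (bin a * bin b : (Fin n → ℕ) → ℂ) =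
      fun c => ∏ i, ((c i).choose (a i) : ℂ) * ((c i).choose (b i) : ℂ) := by
    funext c
    rw [Pi.mul_apply, bin, bin, prod_mul_distrib]
  rw [h2]
  exact h

theorem mul_mem {D D' : ℕ} {H K : (Fin n → ℕ) → ℂ} (hH : H ∈ binSpan n D)
    (hK : K ∈ binSpan n D') : H * K ∈ binSpan n (D + D') := by
  refine Submodule.span_induction (p := fun H _ => H * K ∈ binSpan n (D + D')) ?_ ?_ ?_ ?_ hH
  · rintro f ⟨a, ha, rfl⟩
    refine Submodule.span_induction (p := fun K _ => bin a * K ∈ binSpan n (D + D'))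
      ?_ ?_ ?_ ?_ hK
    · rintro g ⟨b, hb, rfl⟩
      exact bin_mul_mem ha hb
    · rw [mul_zero]
      exact Submodule.zero_mem _
    · intro g g' _ _ h1 h2
      rw [mul_add]
      exact Submodule.add_mem _ h1 h2
    · intro r g _ h1
      rw [mul_smul_comm]
      exact Submodule.smul_mem _ _ h1
  · rw [zero_mul]
    exact Submodule.zero_mem _
  · intro g g' _ _ h1 h2
    rw [add_mul]
    exact Submodule.add_mem _ h1 h2
  · intro r g _ h1
    rw [smul_mul_assoc]
    exact Submodule.smul_mem _ _ h1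

/-- Shifts. -/
theorem shift_mem {D : ℕ} {H : (Fin n → ℕ) → ℂ} (hH : H ∈ binSpan n D) (e : Fin n → ℕ) :
    (fun c => H (c + e)) ∈ binSpan n D := by
  refine Submodule.span_induction (p := fun H _ => (fun c => H (c + e)) ∈ binSpan n D)
    ?_ ?_ ?_ ?_ hH
  · rintro f ⟨a, ha, rfl⟩
    exact prod_mem (fun i x => ((x + e i).choose (a i) : ℂ)) a
      (fun i l => ((e i).choose (a i - l) : ℂ)) (fun i x => by
        rw [Nat.add_choose_eq, Finset.Nat.sum_antidiagonal_eq_sum_range_succ_mk]
        push_cast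
        exact sum_congr rfl fun l _ => by ring) ha
  · exact Submodule.zero_mem _
  · intro g g' _ _ h1 h2
    exact Submodule.add_mem _ h1 h2
  · intro r g _ h1
    exact Submodule.smul_mem _ r h1

/-- Coordinates. -/
theorem coord_mem (i : Fin n) : (fun c : Fin n → ℕ => (c i : ℂ)) ∈ binSpan n 1 := by
  classical
  have h : (fun c : Fin n → ℕ => (c i : ℂ)) = bin (Pi.single i 1) := by
    funext c
    rw [bin, prod_eq_single i]
    · simp
    · intro k _ hk
      rw [Pi.single_eq_of_ne hk]
      simp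
    · intro h
      exact absurd (mem_univ i) h
  rw [h]
  apply bin_mem
  rw [sum_eq_single i]
  · simp
  · intro k _ hk
    exact Pi.single_eq_of_ne hk _
  · intro h
    exact absurd (mem_univ i) h

end Pool.ZX
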