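import Mathlib

/-! Project ZD (MP_4ab349_nt): generating functions of integer valued polynomials on a simplex. -/

set_option autoImplicit false

namespace Pool.ZX

open Finset

variable {n : ℕ}

/-- The generating function of `H` on the simplex `∑ c_i = C`, with multinomial weights. -/
noncomputable def gen (C : ℕ) (H : (Fin n → ℕ) → ℂ) (x : Fin n → ℂ) : ℂ :=
  ∑ c ∈ piAntidiag (univ : Finset (Fin n)) C,
    (Nat.multinomial univ c : ℂ) * H c * ∏ i, x i ^ c i

/-- `H` is a combination of products of binomials of degree at most `D`. -/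
def IsComb (D : ℕ) (H : (Fin n → ℕ) → ℂ) : Prop :=
  ∃ (S : Finset (Fin n → ℕ)) (q : (Fin n → ℕ) → ℂ), (∀ a ∈ S, ∑ i, a i ≤ D) ∧
    ∀ c, H c = ∑ a ∈ S, q a * ∏ i, ((c i).choose (a i) : ℂ)

/-- The coefficient identity. -/
theorem multinomial_add (C : ℕ) (a d : Fin n → ℕ) (ha : ∑ i, a i ≤ C)
    (hd : ∑ i, d i = C - ∑ i, a i) :
    (Nat.multinomial univ (a + d) : ℂ) * ∏ i, (((a + d) i).choose (a i) : ℂ) =
      ((C.factorial : ℂ) / ((C - ∑ i, a i).factorial * ∏ i, ((a i).factorial : ℂ))) *
        (Nat.multinomial univ d : ℂ) := by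
  have h1 : (∏ i, ((a + d) i).factorial) * Nat.multinomial univ (a + d) = C.factorial := by
    rw [Nat.multinomial_spec]
    congr 1
    simp only [Pi.add_apply, sum_add_distrib]
    omega
  have h2 : (∏ i, (d i).factorial) * Nat.multinomial univ d = (C - ∑ i, a i).factorial := by
    rw [Nat.multinomial_spec, hd]
  have h3 : ∀ i, ((a + d) i).choose (a i) * (a i).factorial * (d i).factorial =
      ((a + d) i).factorial := fun i => by
    simp only [Pi.add_apply]
    have h := Nat.choose_mul_factorial_mul_factorial (Nat.le_add_right (a i) (d i))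
    rw [Nat.add_sub_cancel_left] at h
    exact h
  have h4 : (∏ i, ((a + d) i).choose (a i)) * (∏ i, (a i).factorial) * ∏ i, (d i).factorial =
      ∏ i, ((a + d) i).factorial := by
    rw [← prod_mul_distrib, ← prod_mul_distrib]
    exact prod_congr rfl fun i _ => h3 i
  have hA : ((∏ i, (a i).factorial : ℕ) : ℂ) ≠ 0 := by
    exact_mod_cast (prod_pos fun i _ => Nat.factorial_pos _).ne'
  have hD : ((∏ i, (d i).factorial : ℕ) : ℂ) ≠ 0 := by
    exact_mod_cast (prod_pos fun i _ => Nat.factorial_pos _).ne'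
  have hF : (((C - ∑ i, a i).factorial : ℕ) : ℂ) ≠ 0 := by
    exact_mod_cast (Nat.factorial_pos _).ne'
  have e1 : ((∏ i, ((a + d) i).factorial : ℕ) : ℂ) * (Nat.multinomial univ (a + d) : ℂ) =
      (C.factorial : ℂ) := by exact_mod_cast h1
  have e2 : ((∏ i, (d i).factorial : ℕ) : ℂ) * (Nat.multinomial univ d : ℂ) =
      ((C - ∑ i, a i).factorial : ℂ) := by exact_mod_cast h2
  have e4 : ((∏ i, ((a + d) i).choose (a i) : ℕ) : ℂ) * ((∏ i, (a i).factorial : ℕ) : ℂ) *
      ((∏ i, (d i).factorial : ℕ) : ℂ) = ((∏ i, ((a + d) i).factorial : ℕ) : ℂ) := by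
    exact_mod_cast h4
  rw [← e4] at e1
  have e5 : (∏ i, (((a + d) i).choose (a i) : ℂ)) = ((∏ i, ((a + d) i).choose (a i) : ℕ) : ℂ) := by
    push_cast
    rfl
  have e6 : (∏ i, ((a i).factorial : ℂ)) = ((∏ i, (a i).factorial : ℕ) : ℂ) := by
    push_cast
    rfl
  rw [e5, e6, div_mul_eq_mul_div, eq_div_iff (mul_ne_zero hF hA)]
  rw [← e2, ← e1]
  ring

/-- The generating function of a product of binomials. -/
theorem gen_choose (C : ℕ) (a : Fin n → ℕ) (ha : ∑ i, a i ≤ C) (x : Fin n → ℂ) :
    gen C (fun c => ∏ i, ((c i).choose (a i) : ℂ)) x =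
      ((C.factorial : ℂ) / ((C - ∑ i, a i).factorial * ∏ i, ((a i).factorial : ℂ))) *
        (∏ i, x i ^ a i) * (∑ i, x i) ^ (C - ∑ i, a i) := by
  classical
  unfold gen
  rw [Finset.sum_pow_eq_sum_piAntidiag, mul_sum]
  symm
  refine sum_of_injOn (fun d => a + d) ?_ ?_ ?_ ?_
  · intro d _ d' _ h
    simpa using h
  · intro d hd
    rw [mem_coe, mem_piAntidiag] at hd
    rw [mem_coe, mem_piAntidiag]
    refine ⟨?_, fun i _ => mem_univ i⟩
    have h1 : ∑ i, (a + d) i = ∑ i, a i + ∑ i, d i := by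
      simp only [Pi.add_apply, sum_add_distrib]
    have h2 := hd.1
    change ∑ i, (a + d) i = C
    change ∑ i, d i = C - ∑ i, a i at h2
    omega
  · intro c hc hc'
    rw [mem_piAntidiag] at hc
    have : ∃ i, c i < a i := by
      by_contra hcon
      push Not at hcon
      apply hc'
      refine ⟨c - a, ?_, ?_⟩
      · rw [mem_coe, mem_piAntidiag]
        refine ⟨?_, fun i _ => mem_univ i⟩
        have h1 : ∑ i, (c - a) i + ∑ i, a i = ∑ i, c i := by
          rw [← sum_add_distrib]
          refine sum_congr rfl fun i _ => ?_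
          simp only [Pi.sub_apply]
          have := hcon i
          omega
        have h2 := hc.1
        change ∑ i, c i = C at h2
        change ∑ i, (c - a) i = C - ∑ i, a i
        omega
      · funext i
        have := hcon i
        simp only [Pi.add_apply, Pi.sub_apply]
        omega
    obtain ⟨i, hi⟩ := this
    have h0 : ∏ i, ((c i).choose (a i) : ℂ) = 0 :=
      prod_eq_zero (mem_univ i) (by rw [Nat.choose_eq_zero_of_lt hi]; simp)
    simp only [h0]
    ring
  · intro d hd
    rw [mem_piAntidiag] at hd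
    have h1 := multinomial_add C a d ha hd.1
    have h2 : ∏ i, x i ^ (a + d) i = (∏ i, x i ^ a i) * ∏ i, x i ^ d i := by
      rw [← prod_mul_distrib]
      exact prod_congr rfl fun i _ => by rw [Pi.add_apply, pow_add]
    change _ = (Nat.multinomial univ (a + d) : ℂ) * (∏ i, (((a + d) i).choose (a i) : ℂ)) *
        ∏ i, x i ^ (a + d) i
    rw [h1, h2]
    ring

/-- The cofactor. -/
theorem gen_comb (C D : ℕ) (hD : D ≤ C) {H : (Fin n → ℕ) → ℂ} (hH : IsComb D H) :
    ∃ A : (Fin n → ℂ) → ℂ, (∀ x, gen C H x = (∑ i, x i) ^ (C - D) * A x) ∧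
      ∀ x u : Fin n → ℂ, Differentiable ℂ fun k : ℂ => A (x + k • u) := by
  obtain ⟨S, q, hS, hq⟩ := hH
  refine ⟨fun x => ∑ a ∈ S, q a *
    (((C.factorial : ℂ) / ((C - ∑ i, a i).factorial * ∏ i, ((a i).factorial : ℂ))) *
        (∏ i, x i ^ a i) * (∑ i, x i) ^ (D - ∑ i, a i)), ?_, ?_⟩
  · intro x
    have h1 : gen C H x = ∑ a ∈ S, q a * gen C (fun c => ∏ i, ((c i).choose (a i) : ℂ)) x := by
      unfold gen
      simp only [mul_sum]
      rw [sum_comm]
      refine sum_congr rfl fun c _ => ?_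
      rw [hq c, mul_sum, sum_mul]
      exact sum_congr rfl fun a _ => by ring
    rw [h1, mul_sum]
    refine sum_congr rfl fun a ha => ?_
    have h2 := hS a ha
    rw [gen_choose C a (h2.trans hD) x]
    have h3 : C - ∑ i, a i = (C - D) + (D - ∑ i, a i) := by omega
    rw [show (∑ i, x i) ^ (C - ∑ i, a i) = (∑ i, x i) ^ (C - D) * (∑ i, x i) ^ (D - ∑ i, a i) by
      rw [← pow_add, ← h3]]
    ring
  · intro x u
    simp only [Pi.add_apply, Pi.smul_apply, smul_eq_mul]
    fun_prop

/-- Homogeneity. -/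
theorem gen_smul (C : ℕ) (H : (Fin n → ℕ) → ℂ) (r : ℂ) (x : Fin n → ℂ) :
    gen C H (r • x) = r ^ C * gen C H x := by
  unfold gen
  rw [mul_sum]
  refine sum_congr rfl fun c hc => ?_
  rw [mem_piAntidiag] at hc
  simp only [Pi.smul_apply, smul_eq_mul, mul_pow, prod_mul_distrib]
  rw [prod_pow_eq_pow_sum, hc.1]
  ring

theorem gen_continuous (C : ℕ) (H : (Fin n → ℕ) → ℂ) : Continuous (gen C H) := by
  unfold gen
  fun_prop

/-- The generating function determines `H`. -/
theorem gen_eq_zero (C : ℕ) (H : (Fin n → ℕ) → ℂ) (h : ∀ x, gen C H x = 0) (c : Fin n → ℕ)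
    (hc : ∑ i, c i = C) : H c = 0 := by
  classical
  let p : MvPolynomial (Fin n) ℂ := ∑ c ∈ piAntidiag (univ : Finset (Fin n)) C,
    MvPolynomial.monomial (Finsupp.equivFunOnFinite.symm c) ((Nat.multinomial univ c : ℂ) * H c)
  have hp : p = 0 := by
    apply MvPolynomial.funext
    intro x
    rw [map_zero, ← h x]
    simp only [p, map_sum, MvPolynomial.eval_monomial, gen]
    refine sum_congr rfl fun c _ => ?_
    rw [Finsupp.prod_fintype _ _ (fun i => pow_zero _)]
    simp
  have h1 : MvPolynomial.coeff (Finsupp.equivFunOnFinite.symm c) p =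
      (Nat.multinomial univ c : ℂ) * H c := by
    simp only [p, MvPolynomial.coeff_sum, MvPolynomial.coeff_monomial]
    rw [sum_eq_single c]
    · simp
    · intro b _ hb
      rw [if_neg]
      intro h
      exact hb (Finsupp.equivFunOnFinite.symm.injective h)
    · intro h
      exfalso
      apply h
      rw [mem_piAntidiag]
      exact ⟨hc, fun i _ => mem_univ i⟩
  rw [hp, MvPolynomial.coeff_zero] at h1
  have h2 : (Nat.multinomial univ c : ℂ) ≠ 0 := by
    have h3 := Nat.multinomial_spec (univ : Finset (Fin n)) c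
    have h4 : 0 < (∑ i, c i).factorial := Nat.factorial_pos _
    have h5 : Nat.multinomial univ c ≠ 0 := by
      intro h6
      rw [h6, mul_zero] at h3
      omega
    exact_mod_cast h5
  rcases mul_eq_zero.1 h1.symm with h3 | h3
  · exact absurd h3 h2
  · exact h3

end Pool.ZX
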