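import Mathlib

/-! Project ZD (MP_4ab349_nt): roots of unity. -/

set_option autoImplicit false

namespace Pool.ZX

open Finset

/-- A root of unity of order `B`, different from `1`, is not close to `1`. -/
theorem one_sub_root {B : ℕ} (hB : 1 ≤ B) {z : ℂ} (hz : z ^ B = 1) (h1 : z ≠ 1) :
    1 / (B : ℝ) ≤ ‖1 - z‖ := by
  have hBr : (0 : ℝ) < B := by exact_mod_cast hB
  have hn : ‖z‖ = 1 := Complex.norm_eq_one_of_pow_eq_one hz (by omega)
  have h2 : ∑ v ∈ range B, z ^ v = 0 := by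
    have h3 := geom_sum_mul z B
    rw [hz, sub_self] at h3
    exact (mul_eq_zero.1 h3).resolve_right (sub_ne_zero.2 h1)
  have h4 : ∀ v : ℕ, ‖1 - z ^ v‖ ≤ v * ‖1 - z‖ := by
    intro v
    induction v with
    | zero => simp
    | succ v ih =>
      have h5 : 1 - z ^ (v + 1) = (1 - z ^ v) + z ^ v * (1 - z) := by ring
      rw [h5]
      refine (norm_add_le _ _).trans ?_
      rw [norm_mul, norm_pow, hn, one_pow, one_mul]
      push_cast
      linarith
  have h6 : (B : ℂ) = ∑ v ∈ range B, (1 - z ^ v) := by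
    rw [sum_sub_distrib, h2]
    simp
  have h7 : (B : ℝ) ≤ B * (B * ‖1 - z‖) := by
    calc (B : ℝ) = ‖(B : ℂ)‖ := by simp
      _ = ‖∑ v ∈ range B, (1 - z ^ v)‖ := by rw [← h6]
      _ ≤ ∑ v ∈ range B, ‖1 - z ^ v‖ := norm_sum_le _ _
      _ ≤ ∑ _v ∈ range B, (B * ‖1 - z‖) := by
          refine sum_le_sum fun v hv => (h4 v).trans ?_
          have h8 : (v : ℝ) ≤ B := by exact_mod_cast (mem_range.1 hv).le
          exact mul_le_mul_of_nonneg_right h8 (norm_nonneg _)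
      _ = B * (B * ‖1 - z‖) := by simp
  rw [div_le_iff₀ hBr]
  have h9 : (1 : ℝ) ≤ B * ‖1 - z‖ := by
    by_contra hcon
    push Not at hcon
    nlinarith
  linarith

/-- Orthogonality: the mean square of `∑ ω^(k j_i) x_i`. -/
theorem sum_sq {n B : ℕ} {ω : ℂ} (hω : IsPrimitiveRoot ω B) (hB : 1 ≤ B) (j : Fin n → ℕ)
    (hj : ∀ i, j i < B) (hinj : Function.Injective j) (x : Fin n → ℂ) :
    ∑ k ∈ range B, ‖∑ i, ω ^ (k * j i) * x i‖ ^ 2 = B * ∑ i, ‖x i‖ ^ 2 := by
  have hn : ‖ω‖ = 1 := Complex.norm_eq_one_of_pow_eq_one hω.pow_eq_one (by omega)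
  have hconj : (starRingEnd ℂ) ω = ω⁻¹ := by
    rw [Complex.inv_def, Complex.normSq_eq_norm_sq, hn]
    simp
  have hω0 : ω ≠ 0 := by
    intro h
    rw [h, norm_zero] at hn
    exact zero_ne_one hn
  have key : ∑ k ∈ range B, (∑ i, ω ^ (k * j i) * x i) *
      (starRingEnd ℂ) (∑ i, ω ^ (k * j i) * x i) = B * ∑ i, x i * (starRingEnd ℂ) (x i) := by
    have h1 : ∀ k, (∑ i, ω ^ (k * j i) * x i) * (starRingEnd ℂ) (∑ i, ω ^ (k * j i) * x i) =
        ∑ i, ∑ l, (x i * (starRingEnd ℂ) (x l)) * (ω ^ j i * (ω ^ j l)⁻¹) ^ k := by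
      intro k
      rw [map_sum, sum_mul_sum]
      refine sum_congr rfl fun i _ => sum_congr rfl fun l _ => ?_
      rw [map_mul, map_pow, hconj, mul_pow, ← pow_mul, mul_comm (j i) k, inv_pow, inv_pow,
        ← pow_mul, mul_comm (j l) k]
      ring
    simp only [h1]
    rw [sum_comm]
    rw [mul_sum]
    refine sum_congr rfl fun i _ => ?_
    rw [sum_comm]
    rw [sum_eq_single i]
    · rw [← mul_sum]
      rw [mul_inv_cancel₀ (pow_ne_zero _ hω0)]
      simp
      ring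
    · intro l _ hl
      rw [← mul_sum]
      have h2 : (ω ^ j i * (ω ^ j l)⁻¹) ≠ 1 := by
        intro h3
        have h4 : ω ^ j i = ω ^ j l := by
          field_simp at h3
          exact h3
        exact hl (hinj (hω.pow_inj (hj l) (hj i) h4.symm))
      have h5 : (ω ^ j i * (ω ^ j l)⁻¹) ^ B = 1 := by
        rw [mul_pow, inv_pow, ← pow_mul, ← pow_mul, mul_comm (j i), mul_comm (j l), pow_mul,
          pow_mul, hω.pow_eq_one]
        simp
      have h6 := geom_sum_mul (ω ^ j i * (ω ^ j l)⁻¹) B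
      rw [h5, sub_self] at h6
      rw [(mul_eq_zero.1 h6).resolve_right (sub_ne_zero.2 h2), mul_zero]
    · intro h
      exact absurd (mem_univ i) h
  have h8 : ((∑ k ∈ range B, ‖∑ i, ω ^ (k * j i) * x i‖ ^ 2 : ℝ) : ℂ) =
      ((B * ∑ i, ‖x i‖ ^ 2 : ℝ) : ℂ) := by
    push_cast
    have h9 : ∀ z : ℂ, ((‖z‖ : ℝ) : ℂ) ^ 2 = z * (starRingEnd ℂ) z := by
      intro z
      rw [Complex.mul_conj, Complex.normSq_eq_norm_sq]
      push_cast
      rfl
    simp only [h9]
    exact key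
  exact_mod_cast h8

end Pool.ZX
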