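import Pool.Agent.Helper53.ZX.Gen
import Pool.Agent.Helper53.ZX.Root

/-! Project ZD (MP_4ab349_nt): the zero estimate (periodic version of Theorem Z of note 2784;
note 2792 (8)). -/

set_option autoImplicit false

namespace Pool.ZX

open Finset

variable {n : ℕ}

/-- Decay: the generating function is tiny where the linear form `∑ x_i` is small. -/
theorem tiny {C D : ℕ} (hn : 1 ≤ n) (hD : D ≤ C) {H : (Fin n → ℕ) → ℂ} (hH : IsComb D H)
    {M : ℝ} (hM : ∀ x : Fin n → ℂ, ‖x‖ ≤ 1 → ‖gen C H x‖ ≤ M) {ρ : ℝ} (h0 : 0 < ρ)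
    (hρ : ρ * C ≤ (C - D : ℕ)) {x : Fin n → ℂ} (hx : ‖x‖ ≤ 1) (hl : ‖∑ i, x i‖ ≤ ρ / 9 * n) :
    ‖gen C H x‖ ≤ Real.exp (-(C - D : ℕ)) * M := by
  obtain ⟨A, hA, hd⟩ := gen_comb C D hD hH
  obtain ⟨e, he⟩ : ∃ e, e = C - D := ⟨_, rfl⟩
  rw [← he] at hA hρ ⊢
  have hnr : (0 : ℝ) < n := by exact_mod_cast hn
  have hM0 : 0 ≤ M := (norm_nonneg _).trans (hM x hx)
  set u : Fin n → ℂ := fun _ => (n : ℂ)⁻¹ with hu
  have hun : ‖u‖ ≤ (n : ℝ)⁻¹ := by
    rw [pi_norm_le_iff_of_nonneg (by positivity)]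
    intro i
    simp [hu]
  have hul : ∀ k : ℂ, ∑ i, (x + k • u) i = ∑ i, x i + k := by
    intro k
    simp only [Pi.add_apply, Pi.smul_apply, smul_eq_mul, sum_add_distrib, hu, sum_const,
      card_univ, Fintype.card_fin, nsmul_eq_mul]
    have : (n : ℂ) ≠ 0 := by exact_mod_cast (by omega : n ≠ 0)
    field_simp
  set R : ℝ := ρ * n with hR
  have hR0 : 0 < R := by positivity
  -- the bound on the circle
  have hcirc : ∀ k : ℂ, ‖k‖ = R → ‖A (x + k • u)‖ ≤ (1 + ρ) ^ C * M / (8 / 9 * R) ^ e := by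
    intro k hk
    have h1 : ‖x + k • u‖ ≤ 1 + ρ := by
      refine (norm_add_le _ _).trans ?_
      rw [norm_smul, hk]
      have : R * ‖u‖ ≤ R * (n : ℝ)⁻¹ := mul_le_mul_of_nonneg_left hun hR0.le
      have h2 : R * (n : ℝ)⁻¹ = ρ := by
        rw [hR]
        field_simp
      linarith
    have h2 : ‖gen C H (x + k • u)‖ ≤ (1 + ρ) ^ C * M := by
      have h3 : (0 : ℝ) < 1 + ρ := by linarith
      have h4 : x + k • u = ((1 + ρ : ℝ) : ℂ) • ((((1 + ρ : ℝ) : ℂ))⁻¹ • (x + k • u)) := by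
        rw [smul_smul, mul_inv_cancel₀ (by exact_mod_cast h3.ne'), one_smul]
      rw [h4, gen_smul, norm_mul, norm_pow, Complex.norm_real, Real.norm_of_nonneg h3.le]
      refine mul_le_mul_of_nonneg_left (hM _ ?_) (by positivity)
      rw [norm_smul, norm_inv, Complex.norm_real, Real.norm_of_nonneg h3.le]
      rw [inv_mul_le_iff₀ h3]
      linarith
    rw [hA, norm_mul, norm_pow, hul] at h2
    have h5 : 8 / 9 * R ≤ ‖∑ i, x i + k‖ := by
      have h6 : ‖k‖ ≤ ‖∑ i, x i + k‖ + ‖∑ i, x i‖ := by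
        calc ‖k‖ = ‖(∑ i, x i + k) - ∑ i, x i‖ := by rw [add_sub_cancel_left]
          _ ≤ _ := norm_sub_le _ _
      rw [hk] at h6
      have h7 : ρ / 9 * n = R / 9 := by rw [hR]; ring
      rw [h7] at hl
      linarith
    rw [le_div_iff₀ (by positivity)]
    refine le_trans ?_ h2
    rw [mul_comm]
    exact mul_le_mul_of_nonneg_right (pow_le_pow_left₀ (by positivity) h5 e) (norm_nonneg _)
  -- the maximum principle
  have hA0 : ‖A x‖ ≤ (1 + ρ) ^ C * M / (8 / 9 * R) ^ e := by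
    have h1 := Complex.norm_le_of_forall_mem_frontier_norm_le (f := fun k : ℂ => A (x + k • u))
      (U := Metric.ball 0 R) Metric.isBounded_ball ((hd x u).diffContOnCl) (C := (1 + ρ) ^ C * M /
        (8 / 9 * R) ^ e) (fun k hk => by
        rw [frontier_ball _ hR0.ne'] at hk
        exact hcirc k (by simpa using hk)) (z := 0)
      (by rw [closure_ball _ hR0.ne']; simp [hR0.le])
    simpa using h1
  rw [hA, norm_mul, norm_pow]
  have hl' : ‖∑ i, x i‖ ≤ R / 9 := by
    rw [hR]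
    linarith
  calc ‖∑ i, x i‖ ^ e * ‖A x‖ ≤ (R / 9) ^ e * ((1 + ρ) ^ C * M / (8 / 9 * R) ^ e) :=
        mul_le_mul (pow_le_pow_left₀ (norm_nonneg _) hl' e) hA0 (norm_nonneg _) (by positivity)
    _ = ((1 : ℝ) / 8) ^ e * (1 + ρ) ^ C * M := by
        have h1 : (R / 9) ^ e / (8 / 9 * R) ^ e = ((1 : ℝ) / 8) ^ e := by
          rw [← div_pow]
          congr 1
          field_simp
        rw [← h1]
        ring
    _ ≤ Real.exp (-(e : ℝ)) * M := by
        refine mul_le_mul_of_nonneg_right ?_ hM0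
        have h1 : (1 + ρ) ^ C ≤ Real.exp e := by
          calc (1 + ρ) ^ C ≤ (Real.exp ρ) ^ C :=
                pow_le_pow_left₀ (by positivity) (by linarith [Real.add_one_le_exp ρ]) C
            _ = Real.exp (ρ * C) := by rw [← Real.exp_nat_mul]; ring_nf
            _ ≤ Real.exp e := Real.exp_le_exp.2 hρ
        have h2 : ((1 : ℝ) / 8) ^ e ≤ Real.exp (-2 * e) := by
          have h3 : (1 : ℝ) / 8 ≤ Real.exp (-2) := by
            have h4 := Real.exp_one_lt_d9
            have h5 : Real.exp (-2) = (Real.exp 1 * Real.exp 1)⁻¹ := by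
              rw [← Real.exp_add, ← Real.exp_neg]
              norm_num
            rw [h5, one_div]
            apply inv_anti₀ (by positivity)
            have h6 := Real.exp_pos 1
            nlinarith
          calc ((1 : ℝ) / 8) ^ e ≤ (Real.exp (-2)) ^ e := pow_le_pow_left₀ (by norm_num) h3 e
            _ = Real.exp (-2 * e) := by rw [← Real.exp_nat_mul]; ring_nf
        calc ((1 : ℝ) / 8) ^ e * (1 + ρ) ^ C ≤ Real.exp (-2 * e) * Real.exp e :=
              mul_le_mul h2 h1 (by positivity) (Real.exp_pos _).le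
          _ = Real.exp (-(e : ℝ)) := by
              rw [← Real.exp_add]
              ring_nf

/-- The sums over the classes of `∑ j_i c_i`. -/
theorem class_sum {B C : ℕ} {ω : ℂ} (hω : IsPrimitiveRoot ω B) (hB : 1 ≤ B) (j : Fin n → ℕ)
    (H : (Fin n → ℕ) → ℂ) (x : Fin n → ℂ) (b : ℤ)
    (hz : ∀ c : Fin n → ℕ, ∑ i, c i = C → (B : ℤ) ∣ (∑ i, (j i : ℤ) * (c i : ℤ)) - b → H c = 0) :
    ∑ k ∈ range B, (ω ^ k) ^ (-b) * gen C H (fun i => ω ^ (k * j i) * x i) = 0 := by
  have hω0 : ω ≠ 0 := hω.ne_zero (by omega)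
  unfold gen
  simp only [mul_sum]
  rw [sum_comm]
  refine sum_eq_zero fun c hc => ?_
  rw [mem_piAntidiag] at hc
  have h1 : ∀ k : ℕ, (ω ^ k) ^ (-b) * ((Nat.multinomial univ c : ℂ) * H c *
      ∏ i, (ω ^ (k * j i) * x i) ^ c i) = ((Nat.multinomial univ c : ℂ) * H c * ∏ i, x i ^ c i) *
      (ω ^ ((∑ i, (j i : ℤ) * (c i : ℤ)) - b)) ^ k := by
    intro k
    have h2 : ∏ i, (ω ^ (k * j i) * x i) ^ c i =
        (ω ^ (∑ i, (j i : ℤ) * (c i : ℤ))) ^ k * ∏ i, x i ^ c i := by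
      have h3 : (ω ^ (∑ i, (j i : ℤ) * (c i : ℤ))) ^ k = ∏ i, (ω ^ (k * j i)) ^ c i := by
        have h4 : (∑ i, (j i : ℤ) * (c i : ℤ)) = ((∑ i, j i * c i : ℕ) : ℤ) := by push_cast; rfl
        rw [h4, zpow_natCast, ← pow_mul, sum_mul, ← prod_pow_eq_pow_sum]
        refine prod_congr rfl fun i _ => ?_
        rw [← pow_mul]
        ring_nf
      rw [h3, ← prod_mul_distrib]
      exact prod_congr rfl fun i _ => mul_pow _ _ _
    rw [h2, zpow_sub₀ hω0, div_pow, zpow_neg, ← zpow_natCast (ω ^ b) k, ← zpow_mul,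
      ← zpow_natCast ω k, ← zpow_mul, mul_comm b (k : ℤ)]
    field_simp
  simp only [h1]
  rw [← mul_sum]
  by_cases hd : (B : ℤ) ∣ (∑ i, (j i : ℤ) * (c i : ℤ)) - b
  · rw [hz c hc.1 hd]
    ring
  · have h5 : ω ^ ((∑ i, (j i : ℤ) * (c i : ℤ)) - b) ≠ 1 := fun h =>
      hd ((hω.zpow_eq_one_iff_dvd _).1 h)
    have h6 : (ω ^ ((∑ i, (j i : ℤ) * (c i : ℤ)) - b)) ^ B = 1 := by
      rw [← zpow_natCast, ← zpow_mul, mul_comm, zpow_mul, zpow_natCast, hω.pow_eq_one, one_zpow]
    have h7 := geom_sum_mul (ω ^ ((∑ i, (j i : ℤ) * (c i : ℤ)) - b)) B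
    rw [h6, sub_self] at h7
    rw [(mul_eq_zero.1 h7).resolve_right (sub_ne_zero.2 h5), mul_zero]

/-- **Theorem Z**, periodic version. -/
theorem zero_estimate {B C D y : ℕ} (hn : 1 ≤ n) (hB : 1 ≤ B) (j : Fin n → ℕ)
    (hj : ∀ i, j i < B) (hinj : Function.Injective j) (hD : D ≤ C) {ρ : ℝ} (h0 : 0 < ρ)
    (hρ : ρ * C ≤ (C - D : ℕ)) (hy : 81 * (B : ℝ) / (ρ ^ 2 * n) + 1 ≤ y)
    (hbig : (B : ℝ) * (2 * B) ^ B < Real.exp ((C - D : ℕ) : ℝ)) (b : ℤ)
    {H : (Fin n → ℕ) → ℂ} (hH : IsComb D H)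
    (hz : ∀ c : Fin n → ℕ, ∑ i, c i = C →
      ((∑ i, (j i : ℤ) * (c i : ℤ)) - b) % (B : ℤ) < y → H c = 0) :
    ∀ c : Fin n → ℕ, ∑ i, c i = C → H c = 0 := by
  classical
  have hBr : (0 : ℝ) < B := by exact_mod_cast hB
  have hB1 : (1 : ℝ) ≤ B := by exact_mod_cast hB
  have hnr : (0 : ℝ) < n := by exact_mod_cast hn
  obtain ⟨ω, hω⟩ : ∃ ω : ℂ, IsPrimitiveRoot ω B := ⟨_, Complex.isPrimitiveRoot_exp B (by omega)⟩
  have hωn : ‖ω‖ = 1 := Complex.norm_eq_one_of_pow_eq_one hω.pow_eq_one (by omega)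
  have hω0 : ω ≠ 0 := hω.ne_zero (by omega)
  -- the maximum on the polydisc
  obtain ⟨e, he, hmax⟩ := (isCompact_closedBall (0 : Fin n → ℂ) 1).exists_isMaxOn
    ⟨0, by simp⟩ ((gen_continuous C H).norm.continuousOn)
  obtain ⟨M, hMe⟩ : ∃ M, M = ‖gen C H e‖ := ⟨_, rfl⟩
  have he1 : ‖e‖ ≤ 1 := by simpa using he
  have hM : ∀ x : Fin n → ℂ, ‖x‖ ≤ 1 → ‖gen C H x‖ ≤ M := fun x hx => by
    rw [hMe]
    exact hmax (by simpa using hx)
  have hM0 : 0 ≤ M := hMe ▸ norm_nonneg _
  let g : ℕ → Fin n → ℂ := fun k i => ω ^ (k * j i) * e i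
  have hg : ∀ k, ‖g k‖ ≤ 1 := by
    intro k
    rw [pi_norm_le_iff_of_nonneg zero_le_one]
    intro i
    simp only [g]
    rw [norm_mul, norm_pow, hωn, one_pow, one_mul]
    exact (norm_le_pi_norm e i).trans he1
  -- the rare `k`
  let R : Finset ℕ := (range B).filter fun k => k ≠ 0 ∧ ρ / 9 * n < ‖∑ i, g k i‖
  have hRB : R.card ≤ B := by
    refine (card_filter_le _ _).trans ?_
    simp
  have hRy : R.card < y := by
    have h1 : (R.card : ℝ) * (ρ / 9 * n) ^ 2 ≤ B * n := by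
      calc (R.card : ℝ) * (ρ / 9 * n) ^ 2 = ∑ _k ∈ R, (ρ / 9 * n) ^ 2 := by
            rw [sum_const, nsmul_eq_mul]
        _ ≤ ∑ k ∈ R, ‖∑ i, g k i‖ ^ 2 := by
            refine sum_le_sum fun k hk => ?_
            exact pow_le_pow_left₀ (by positivity) (mem_filter.1 hk).2.2.le 2
        _ ≤ ∑ k ∈ range B, ‖∑ i, g k i‖ ^ 2 :=
            sum_le_sum_of_subset_of_nonneg (filter_subset _ _) fun _ _ _ => by positivity
        _ = B * ∑ i, ‖e i‖ ^ 2 := sum_sq hω hB j hj hinj e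
        _ ≤ B * n := by
            refine mul_le_mul_of_nonneg_left ?_ hBr.le
            calc ∑ i, ‖e i‖ ^ 2 ≤ ∑ _i : Fin n, (1 : ℝ) := by
                  refine sum_le_sum fun i _ => ?_
                  exact pow_le_one₀ (norm_nonneg _) ((norm_le_pi_norm e i).trans he1)
              _ = n := by simp
    have h2 : (R.card : ℝ) ≤ 81 * (B : ℝ) / (ρ ^ 2 * n) := by
      rw [le_div_iff₀ (by positivity)]
      have h3 : (R.card : ℝ) * (ρ / 9 * n) ^ 2 = (R.card : ℝ) * (ρ ^ 2 * n) * n / 81 := by ring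
      rw [h3] at h1
      have h4 : (R.card : ℝ) * (ρ ^ 2 * n) * n ≤ 81 * B * n := by linarith
      exact le_of_mul_le_mul_right h4 hnr
    have h5 : (R.card : ℝ) < y := by linarith
    exact_mod_cast h5
  -- the operator
  let q : Polynomial ℂ := ∏ k ∈ R, (Polynomial.X - Polynomial.C ((ω ^ k)⁻¹))
  have hqdeg : q.natDegree < y := by
    have : q.natDegree = R.card := by
      simp only [q]
      rw [Polynomial.natDegree_prod_of_monic _ _ fun k _ => Polynomial.monic_X_sub_C _]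
      simp
    rw [this]
    exact hRy
  have hq : ∀ z : ℂ, q.eval z = ∏ k ∈ R, (z - (ω ^ k)⁻¹) := by
    intro z
    simp only [q, Polynomial.eval_prod, Polynomial.eval_sub, Polynomial.eval_X,
      Polynomial.eval_C]
  have hsum : ∑ k ∈ range B, (ω ^ k) ^ (-b) * gen C H (g k) * q.eval ((ω ^ k)⁻¹) = 0 := by
    have h1 : ∀ k, q.eval ((ω ^ k)⁻¹) =
        ∑ v ∈ range (q.natDegree + 1), q.coeff v * ((ω ^ k)⁻¹) ^ v := fun k =>
      Polynomial.eval_eq_sum_range _
    simp only [h1, mul_sum]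
    rw [sum_comm]
    refine sum_eq_zero fun v hv => ?_
    have hv' : v < y := by
      have := mem_range.1 hv
      omega
    have h2 := class_sum (C := C) hω hB j H e (b + v) (by
      intro c hc hd
      apply hz c hc
      obtain ⟨t, ht⟩ := hd
      have h3 : (∑ i, (j i : ℤ) * (c i : ℤ)) - b = v + B * t := by linarith
      rw [h3, Int.add_mul_emod_self_left]
      rw [← Int.natCast_mod]
      exact_mod_cast (Nat.mod_le v B).trans_lt hv')
    have h4 : ∀ k, (ω ^ k) ^ (-b) * gen C H (g k) * (q.coeff v * ((ω ^ k)⁻¹) ^ v) =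
        q.coeff v * ((ω ^ k) ^ (-(b + v)) * gen C H (fun i => ω ^ (k * j i) * e i)) := by
      intro k
      have hk0 : ω ^ k ≠ 0 := pow_ne_zero _ hω0
      rw [neg_add, zpow_add₀ hk0, zpow_neg (ω ^ k) (v : ℤ), zpow_natCast, inv_pow]
      ring
    simp only [h4]
    rw [← mul_sum, h2, mul_zero]
  -- estimates
  have hR0 : 0 ∉ R := fun h => (mem_filter.1 h).2.1 rfl
  have hmain : M * (1 / (B : ℝ)) ^ R.card ≤ B * (2 ^ R.card * (Real.exp (-(C - D : ℕ)) * M)) := by
    have h1 : (0 : ℕ) ∈ range B := mem_range.2 (by omega)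
    rw [← add_sum_erase _ _ h1] at hsum
    have h2 : (ω ^ 0) ^ (-b) * gen C H (g 0) * q.eval ((ω ^ 0)⁻¹) = gen C H e * q.eval 1 := by
      have : g 0 = e := by
        funext i
        simp [g]
      rw [this]
      simp
    rw [h2] at hsum
    have h3 : ‖gen C H e * q.eval 1‖ ≤ B * (2 ^ R.card * (Real.exp (-(C - D : ℕ)) * M)) := by
      rw [eq_neg_of_add_eq_zero_left hsum, norm_neg]
      refine (norm_sum_le _ _).trans ?_
      calc ∑ k ∈ (range B).erase 0, ‖(ω ^ k) ^ (-b) * gen C H (g k) * q.eval ((ω ^ k)⁻¹)‖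
          ≤ ∑ _k ∈ (range B).erase 0, 2 ^ R.card * (Real.exp (-(C - D : ℕ)) * M) := by
            refine sum_le_sum fun k hk => ?_
            rw [mem_erase] at hk
            have hkn : ‖ω ^ k‖ = 1 := by rw [norm_pow, hωn, one_pow]
            by_cases hkR : k ∈ R
            · have h4 : q.eval ((ω ^ k)⁻¹) = 0 := by
                rw [hq]
                exact prod_eq_zero hkR (sub_self _)
              rw [h4, mul_zero, norm_zero]
              positivity
            · have h5 : ‖∑ i, g k i‖ ≤ ρ / 9 * n := by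
                by_contra hcon
                exact hkR (mem_filter.2 ⟨hk.2, hk.1, not_le.1 hcon⟩)
              have h6 := tiny hn hD hH hM h0 hρ (hg k) h5
              have h7 : ‖q.eval ((ω ^ k)⁻¹)‖ ≤ 2 ^ R.card := by
                rw [hq, norm_prod]
                calc ∏ l ∈ R, ‖(ω ^ k)⁻¹ - (ω ^ l)⁻¹‖ ≤ ∏ _l ∈ R, (2 : ℝ) := by
                      refine prod_le_prod (fun _ _ => norm_nonneg _) fun l _ => ?_
                      refine (norm_sub_le _ _).trans ?_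
                      rw [norm_inv, norm_inv, norm_pow, norm_pow, hωn]
                      norm_num
                  _ = 2 ^ R.card := by rw [prod_const]
              rw [norm_mul, norm_mul, norm_zpow, hkn, one_zpow, one_mul, mul_comm]
              exact mul_le_mul h7 h6 (norm_nonneg _) (by positivity)
        _ = ((range B).erase 0).card * (2 ^ R.card * (Real.exp (-(C - D : ℕ)) * M)) := by
            rw [sum_const, nsmul_eq_mul]
        _ ≤ B * (2 ^ R.card * (Real.exp (-(C - D : ℕ)) * M)) := by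
            refine mul_le_mul_of_nonneg_right ?_ (by positivity)
            have : ((range B).erase 0).card ≤ B := by
              refine (card_erase_le).trans ?_
              simp
            exact_mod_cast this
    have h8 : (1 / (B : ℝ)) ^ R.card ≤ ‖q.eval 1‖ := by
      rw [hq, norm_prod]
      calc (1 / (B : ℝ)) ^ R.card = ∏ _l ∈ R, (1 / (B : ℝ)) := by rw [prod_const]
        _ ≤ ∏ l ∈ R, ‖1 - (ω ^ l)⁻¹‖ := by
            refine prod_le_prod (fun _ _ => by positivity) fun l hl => ?_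
            have hl' := mem_filter.1 hl
            apply one_sub_root hB
            · rw [inv_pow, ← pow_mul, mul_comm, pow_mul, hω.pow_eq_one, one_pow, inv_one]
            · intro h9
              have h10 : ω ^ l = 1 := by
                rw [← inv_inv (ω ^ l), h9, inv_one]
              have h11 := (hω.pow_eq_one_iff_dvd l).1 h10
              have h12 := Nat.le_of_dvd (Nat.pos_of_ne_zero hl'.2.1) h11
              have h13 := mem_range.1 hl'.1
              omega
    calc M * (1 / (B : ℝ)) ^ R.card ≤ ‖gen C H e‖ * ‖q.eval 1‖ := by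
          rw [hMe]
          exact mul_le_mul_of_nonneg_left h8 (norm_nonneg _)
      _ = ‖gen C H e * q.eval 1‖ := (norm_mul _ _).symm
      _ ≤ _ := h3
  have hMzero : M = 0 := by
    by_contra hne
    have hMpos : 0 < M := lt_of_le_of_ne hM0 (Ne.symm hne)
    have h1 : (1 / (B : ℝ)) ^ R.card ≤ B * (2 ^ R.card * Real.exp (-(C - D : ℕ))) := by
      have h2 : M * (1 / (B : ℝ)) ^ R.card ≤
          M * (B * (2 ^ R.card * Real.exp (-(C - D : ℕ)))) := by
        refine hmain.trans (le_of_eq ?_)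
        ring
      exact le_of_mul_le_mul_left h2 hMpos
    have h3 : Real.exp ((C - D : ℕ) : ℝ) ≤ B * (2 * B) ^ R.card := by
      have h4 : 0 < (B : ℝ) ^ R.card := by positivity
      have h5 : 0 < Real.exp ((C - D : ℕ) : ℝ) := Real.exp_pos _
      rw [one_div, inv_pow, Real.exp_neg] at h1
      have h6 : ((B : ℝ) ^ R.card)⁻¹ * ((B : ℝ) ^ R.card * Real.exp ((C - D : ℕ) : ℝ)) ≤
          (B * (2 ^ R.card * (Real.exp ((C - D : ℕ) : ℝ))⁻¹)) *
            ((B : ℝ) ^ R.card * Real.exp ((C - D : ℕ) : ℝ)) :=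
        mul_le_mul_of_nonneg_right h1 (by positivity)
      rw [← mul_assoc, inv_mul_cancel₀ h4.ne', one_mul] at h6
      refine h6.trans (le_of_eq ?_)
      rw [mul_pow]
      field_simp
    have h7 : (B : ℝ) * (2 * B) ^ R.card ≤ B * (2 * B) ^ B := by
      refine mul_le_mul_of_nonneg_left ?_ hBr.le
      exact pow_le_pow_right₀ (by linarith) hRB
    linarith
  have hgen : ∀ x, gen C H x = 0 := by
    intro x
    have h1 : 0 < ‖x‖ + 1 := by positivity
    have h2 : x = ((‖x‖ + 1 : ℝ) : ℂ) • ((((‖x‖ + 1 : ℝ) : ℂ))⁻¹ • x) := by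
      rw [smul_smul, mul_inv_cancel₀ (by exact_mod_cast h1.ne'), one_smul]
    have h3 : gen C H ((((‖x‖ + 1 : ℝ) : ℂ))⁻¹ • x) = 0 := by
      have h4 := hM ((((‖x‖ + 1 : ℝ) : ℂ))⁻¹ • x) (by
        rw [norm_smul, norm_inv, Complex.norm_real, Real.norm_of_nonneg h1.le,
          inv_mul_le_iff₀ h1]
        linarith)
      rw [hMzero] at h4
      exact norm_le_zero_iff.1 h4
    rw [h2, gen_smul, h3, mul_zero]
  exact fun c hc => gen_eq_zero C H hgen c hc

end Pool.ZX
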